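import Pool.Agent.helper69.SN.SpecB

/-!
Row xBDR of the project MP_d2d7b9_gt (sn): the second order expansion of the envelope of the Perron
function is not inside.
-/

open scoped Pointwise ContDiff
open MeasureTheory Set Filter Topology

namespace Pool.Agent.helper69.SN

open Pool.Agent.helper83.SC

/-- A symmetric matrix with small entries is at most a small multiple of the identity. -/
theorem BDR_le {m : ℕ} (D : Mat m) (hD : D.IsSymm) (ρ c : ℝ) (h : ∀ a b, |D a b| ≤ ρ)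
    (hc : (m : ℝ) * ρ ≤ c) : (c • (1 : Mat m) - D).PosSemidef := by
  refine Matrix.PosSemidef.of_dotProduct_mulVec_nonneg ?_ ?_
  · rw [Matrix.IsHermitian, Matrix.conjTranspose_eq_transpose_of_trivial, Matrix.transpose_sub,
      Matrix.transpose_smul, Matrix.transpose_one, hD]
  · intro v
    simp only [star_trivial]
    rw [Matrix.sub_mulVec, dotProduct_sub, Matrix.smul_mulVec, Matrix.one_mulVec, dotProduct_smul,
      sub_nonneg, smul_eq_mul]
    have h1 : v ⬝ᵥ D.mulVec v ≤ ∑ a, ∑ b, ρ * (|v a| * |v b|) := by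
      simp only [dotProduct, Matrix.mulVec, Finset.mul_sum]
      refine Finset.sum_le_sum fun a _ => Finset.sum_le_sum fun b _ => ?_
      calc v a * (D a b * v b) ≤ |v a * (D a b * v b)| := le_abs_self _
        _ = |D a b| * (|v a| * |v b|) := by rw [abs_mul, abs_mul]; ring
        _ ≤ ρ * (|v a| * |v b|) := mul_le_mul_of_nonneg_right (h a b) (by positivity)
    have h2 : ∑ a, ∑ b, ρ * (|v a| * |v b|) = ρ * (∑ a, |v a|) ^ 2 := by
      rw [sq, Finset.sum_mul_sum]
      simp only [Finset.mul_sum]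
    have h3 : (∑ a, |v a|) ^ 2 ≤ (m : ℝ) * ∑ a, |v a| ^ 2 := by
      have := sq_sum_le_card_mul_sum_sq (s := Finset.univ) (f := fun a => |v a|)
      simpa using this
    have h4 : v ⬝ᵥ v = ∑ a, |v a| ^ 2 := by
      simp only [dotProduct, sq_abs]
      exact Finset.sum_congr rfl fun a _ => by ring
    have h5 : 0 ≤ ∑ a, |v a| ^ 2 := Finset.sum_nonneg fun a _ => by positivity
    rcases isEmpty_or_nonempty (Fin m) with he | ⟨⟨a₀⟩⟩
    · simp [dotProduct]
    · have hρ : 0 ≤ ρ := (abs_nonneg _).trans (h a₀ a₀)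
      rw [h4]
      calc v ⬝ᵥ D.mulVec v ≤ ρ * (∑ a, |v a|) ^ 2 := h1.trans_eq h2
        _ ≤ ρ * ((m : ℝ) * ∑ a, |v a| ^ 2) := mul_le_mul_of_nonneg_left h3 hρ
        _ = ((m : ℝ) * ρ) * ∑ a, |v a| ^ 2 := by ring
        _ ≤ c * ∑ a, |v a| ^ 2 := mul_le_mul_of_nonneg_right hc h5

/-- All the entries of the family at a point. -/
def BDR_Φ {m n : ℕ} (B : E m → Fin n → Mat m) (x : E m) : Fin n × Fin m × Fin m → ℝ :=
  fun p => B x p.1 p.2.1 p.2.2

theorem BDR_cont {m n : ℕ} (B : E m → Fin n → Mat m) (hB : ∀ i, Continuous fun x => B x i) :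
    Continuous (BDR_Φ B) := by
  refine continuous_pi fun p => ?_
  exact (hB p.1).matrix_elem p.2.1 p.2.2

theorem BDR_sym {m n : ℕ} {B : Fin n → Mat m} (hB : Psd B) (i : Fin n) : (B i).IsSymm := by
  have h := (hB i).isHermitian
  rwa [Matrix.IsHermitian, Matrix.conjTranspose_eq_transpose_of_trivial] at h

theorem xBDR_of (hPER : bPER_stmt) (hCLS : bCLS_stmt) (hPRX : xPRX_stmt) (hLOC : xLOC_stmt)
    (hTCH : xTCH_stmt) (haPER : aPER_stmt) (hBSM : aBSM_stmt) (hCLO : aCLO_stmt)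
    (hLip : loc_lip_stmt) : xBDR_stmt := by
  intro m n hm B hB hBc U κ₀ hUo hUb h0 Z hZ hZU δ hδ
  obtain ⟨κ, hκdef⟩ : ∃ κ, κ = per B U κ₀ := ⟨_, rfl⟩
  have hκ : CV κ := by
    rw [hκdef]
    exact ((hCLS B hB).2.1 _ (hPER hm B hB U κ₀ hUb h0).1).1
  obtain ⟨R, hR⟩ := hZ.isBounded.subset_closedBall (0 : E m)
  obtain ⟨L₀, hL₀⟩ := hLip (g := fun _ => κ) (f := κ) (fun _ => hκ)
    (fun x => tendsto_const_nhds) (R + 1)
  obtain ⟨L, hLdef⟩ : ∃ L, L = |L₀| := ⟨_, rfl⟩
  have hLnn : 0 ≤ L := by rw [hLdef]; exact abs_nonneg _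
  have hL : ∀ x y : E m, ‖x‖ ≤ R + 1 → ‖y‖ ≤ R + 1 → |κ x - κ y| ≤ L * ‖x - y‖ :=
    fun x y hx hy => by
      rw [hLdef]
      exact (hL₀ 0 x y hx hy).trans (mul_le_mul_of_nonneg_right (le_abs_self _) (norm_nonneg _))
  have hΦ := BDR_cont B hBc
  obtain ⟨C, hC⟩ := (isCompact_closedBall (0 : E m) (R + 1)).exists_bound_of_continuousOn
    hΦ.continuousOn
  have hCe : ∀ x : E m, ‖x‖ ≤ R + 1 → ∀ i a b, |B x i a b| ≤ C := by
    intro x hx i a b
    have h1 := hC x (by simpa using hx)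
    exact (norm_le_pi_norm (BDR_Φ B x) (i, a, b)).trans h1
  have hbnn : (0 : ℝ) ≤ m * |C| := by positivity
  have hLe : ∀ x : E m, ‖x‖ ≤ R + 1 → Le (B x) (m * |C|) := by
    intro x hx i
    exact BDR_le (B x i) (BDR_sym (hB x) i) |C| _
      (fun a b => (hCe x hx i a b).trans (le_abs_self _)) le_rfl
  obtain ⟨η, hη, hper⟩ := haPER (m := m) (n := n) (m * |C|) (δ / 2) hbnn (by linarith)
  have hm1 : (0 : ℝ) < m + 1 := by positivity
  obtain ⟨γ, hγ, hγ2⟩ := Metric.uniformContinuousOn_iff.1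
    ((isCompact_closedBall (0 : E m) (R + 1)).uniformContinuousOn_of_continuous hΦ.continuousOn)
    (η / (m + 1)) (by positivity)
  obtain ⟨γ', hγ', hγU⟩ := hZ.exists_thickening_subset_open hUo hZU
  obtain ⟨t, htdef⟩ : ∃ t, t = min (min γ γ') 1 := ⟨_, rfl⟩
  have ht : 0 < t := by
    rw [htdef]
    exact lt_min (lt_min hγ hγ') one_pos
  have ht1 : t ≤ γ := by rw [htdef]; exact (min_le_left _ _).trans (min_le_left _ _)
  have ht2 : t ≤ γ' := by rw [htdef]; exact (min_le_left _ _).trans (min_le_right _ _)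
  have ht3 : t ≤ 1 := by rw [htdef]; exact min_le_right _ _
  refine ⟨t / (2 * (2 * L + 1)), by positivity, fun e he hee x hx g M hM _ hexp hin => ?_⟩
  rw [← hκdef] at hexp
  obtain ⟨P, hP1, hP2, -, -, -, -, -, -⟩ := hPRX κ e hκ he
  have hxR : ‖x‖ ≤ R := by simpa using hR hx
  have hdist : ‖x - P x‖ < t := by
    have h1 := (hLOC κ e R L P hκ he hLnn hP1 hP2 hL x hxR).1
    have h2 : e * (2 * (2 * L + 1)) ≤ t := by
      rwa [le_div_iff₀ (by positivity)] at hee
    nlinarith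
  have hyR : ‖P x‖ ≤ R + 1 := by
    have h1 := norm_sub_norm_le (P x) x
    rw [norm_sub_rev] at h1
    linarith
  have hyU : P x ∈ U := by
    apply hγU
    rw [Metric.mem_thickening_iff]
    refine ⟨x, hx, ?_⟩
    rw [dist_comm, dist_eq_norm]
    linarith
  -- touching
  have hT := hTCH hm B hB hBc U κ₀ hUo hUb h0 (P x) hyU g M hM (by
    rw [← hκdef]
    intro ε hε
    obtain ⟨r, hr, hr2⟩ := hexp ε hε
    refine ⟨r, hr, fun h hh => ?_⟩
    have h1 := (abs_le.1 (hr2 h hh)).1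
    have h2 := hP2 x
    have h3 := hP2 (x + h)
    have h4 := hP1 (x + h) (P x + h)
    rw [← h3, add_sub_add_right_eq_sub] at h4
    linarith) (δ / 2) (by linarith)
  apply hT
  -- from `x` to `P x`
  have hN : (M - δ • (1 : Mat m)).PosSemidef := by
    have h1 := (hBSM (B x) (hB x) _ hin).2
    have h2 : M - ∑ i, B x i - δ • (1 : Mat m) + ∑ i, B x i = M - δ • (1 : Mat m) := by abel
    rwa [h2] at h1
  have hsmall : ∀ i a b, |B x i a b - B (P x) i a b| ≤ η / (m + 1) := by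
    intro i a b
    have h1 := hγ2 x (by simpa using (by linarith : ‖x‖ ≤ R + 1)) (P x) (by simpa using hyR)
      (by rw [dist_eq_norm]; linarith)
    have h2 := (dist_le_pi_dist (BDR_Φ B x) (BDR_Φ B (P x)) (i, a, b)).trans h1.le
    rwa [Real.dist_eq] at h2
  have hmη : (m : ℝ) * (η / (m + 1)) ≤ η := by
    rw [mul_div_assoc', div_le_iff₀ hm1]
    nlinarith
  have hηN : ∀ D : Mat m, D.IsSymm → (∀ a b, |D a b| ≤ η / (m + 1)) →
      (η • (1 + (M - δ • (1 : Mat m))) - D).PosSemidef := by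
    intro D hD hDs
    have h1 := (BDR_le D hD (η / (m + 1)) η hDs hmη).add (hN.smul hη.le)
    have h2 : η • (1 : Mat m) - D + η • (M - δ • (1 : Mat m))
        = η • (1 + (M - δ • (1 : Mat m))) - D := by
      rw [smul_add]
      abel
    rwa [h2] at h1
  have h5 := hper (B x) (B (P x)) (M - δ • (1 : Mat m)) (hB x) (hB (P x))
    (hLe x (by linarith)) (hLe (P x) hyR) hN
    (fun i => hηN _ ((BDR_sym (hB x) i).sub (BDR_sym (hB (P x)) i)) fun a b => hsmall i a b)
    (fun i => hηN _ ((BDR_sym (hB (P x)) i).sub (BDR_sym (hB x) i)) fun a b => by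
      rw [Matrix.sub_apply, abs_sub_comm]
      exact hsmall i a b)
    (by
      have h1 := (hCLO (B x) (hB x)).2.1 _ (η • (1 : Mat m)) hin
        (Matrix.PosSemidef.one.smul hη.le)
      have h2 : M - ∑ i, B x i - δ • (1 : Mat m) + η • (1 : Mat m)
          = M - δ • (1 : Mat m) - ∑ i, B x i + η • (1 : Mat m) := by abel
      rwa [h2] at h1)
  have h6 : M - δ • (1 : Mat m) - ∑ i, B (P x) i + (δ / 2) • (1 : Mat m)
      = M - (δ / 2) • (1 : Mat m) - ∑ i, B (P x) i := by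
    have h7 : δ • (1 : Mat m) = (δ / 2) • (1 : Mat m) + (δ / 2) • (1 : Mat m) := by
      rw [← add_smul]
      congr 1
      ring
    rw [h7]
    abel
  rwa [h6] at h5

end Pool.Agent.helper69.SN
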