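import Pool.Agent.helper69.SN.SpecA
import Pool.Agent.helper35.SC.LA1

/-!
Row aBSM of the project MP_d2d7b9_gt (sn): iteration of the barrier.
-/

open scoped Pointwise ContDiff
open MeasureTheory Set Filter Topology

namespace Pool.Agent.helper69.SN

open Pool.Agent.helper83.SC

/-- A mixed discriminant with a zero matrix vanishes. -/
theorem BSM_mD_zero {m : ℕ} (M : Fin m → Mat m) (j : Fin m) (h : M j = 0) : mD M = 0 := by
  have h1 := mD_update_smul_of M j 0 0
  rw [zero_smul, zero_mul, ← h, Function.update_eq_self] at h1
  exact h1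

/-- `Ph` of the zero family is the determinant. -/
theorem BSM_Ph_zero {m n : ℕ} (B : Fin n → Mat m) (hB : ∀ i, B i = 0) (M : Mat m) :
    Ph B M = M.det := by
  unfold Ph
  rw [Finset.sum_eq_single (∅ : Finset (Fin n))]
  · have h1 : slot B ∅ M = fun _ => M := by
      funext j
      simp [slot]
    rw [h1, mD_diag_of]
    simp
  · intro T _ hT
    rcases Nat.lt_or_ge m T.card with h | h
    · rw [Nat.descFactorial_eq_zero_iff_lt.2 h]
      simp
    · have hc : 0 < T.card := Finset.card_pos.2 (Finset.nonempty_iff_ne_empty.2 hT)
      rw [BSM_mD_zero (slot B T M) ⟨0, lt_of_lt_of_le hc h⟩ (by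
        unfold slot
        rw [dif_pos hc]
        exact hB _), mul_zero]
  · intro h
    exact absurd (Finset.mem_univ _) h

/-- A symmetric matrix with `t ^ m ≤ det (N + t)` for `t ≥ 0` is positive semidefinite. -/
theorem BSM_psd {m : ℕ} (N : Mat m) (hN : N.IsSymm)
    (h : ∀ t : ℝ, 0 ≤ t → t ^ m ≤ (N + t • (1 : Mat m)).det) : N.PosSemidef := by
  have hH : N.IsHermitian := by
    rw [Matrix.IsHermitian, Matrix.conjTranspose_eq_transpose_of_trivial]
    exact hN
  rw [hH.posSemidef_iff_eigenvalues_nonneg]
  intro i
  rw [Pi.zero_apply]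
  by_contra hneg
  push Not at hneg
  have h1 := h (-hH.eigenvalues i) (by linarith)
  have h2 : (N + (-hH.eigenvalues i) • (1 : Mat m)).det = 0 := by
    rw [← Matrix.exists_mulVec_eq_zero_iff]
    refine ⟨WithLp.ofLp (hH.eigenvectorBasis i), ?_, ?_⟩
    · intro h0
      have h3 := (hH.eigenvectorBasis).orthonormal.ne_zero i
      apply h3
      ext j
      exact congrFun h0 j
    · rw [Matrix.add_mulVec, hH.mulVec_eigenvectorBasis i, Matrix.smul_mulVec, Matrix.one_mulVec]
      simp
  rw [h2] at h1
  exact absurd h1 (not_le.2 (pow_pos (by linarith) m))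

theorem aBSM_of (hBAR : aBAR_stmt) : aBSM_stmt := by
  intro m n B hB M hM
  have key : ∀ J : Finset (Fin n),
      M + ∑ i ∈ J, B i ∈ GG (fun i => if i ∈ J then 0 else B i) := by
    intro J
    induction J using Finset.induction_on with
    | empty => simpa using hM
    | insert k J hk ih =>
      have hp : Psd (fun i => if i ∈ J then 0 else B i) := by
        intro i
        show (if i ∈ J then (0 : Mat m) else B i).PosSemidef
        split_ifs
        · exact Matrix.PosSemidef.zero
        · exact hB i
      have h1 := hBAR _ hp k _ ih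
      have h2 : Function.update (fun i => if i ∈ J then (0 : Mat m) else B i) k 0
          = fun i => if i ∈ insert k J then 0 else B i := by
        funext i
        rcases eq_or_ne i k with h | h
        · subst h
          rw [Function.update_self, if_pos (Finset.mem_insert_self _ _)]
        · rw [Function.update_of_ne h]
          simp only [Finset.mem_insert, h, false_or]
      rw [h2] at h1
      rw [Finset.sum_insert hk, add_comm (B k), ← add_assoc]
      simpa only [if_neg hk] using h1
  refine ⟨key, ?_⟩
  have h1 := key Finset.univ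
  refine BSM_psd _ h1.1 fun t ht => ?_
  have h2 := h1.2 t ht
  rwa [BSM_Ph_zero _ (fun i => if_pos (Finset.mem_univ i))] at h2

end Pool.Agent.helper69.SN
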