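import Pool.Agent.helper69.SN.SpecB
import Pool.Agent.helper53.SC.HS1

/-!
Row bCVX of the project MP_d2d7b9_gt (sn): smooth functions with positive semidefinite Hessians
are convex.
-/

open scoped Pointwise ContDiff
open MeasureTheory Set Filter Topology

namespace Pool.Agent.helper69.SN

open Pool.Agent.helper83.SC

theorem bCVX_of : bCVX_stmt := by
  intro m f hf
  refine ⟨fun x => ?_, fun hp => ?_⟩
  · ext i j
    simp only [hess, Matrix.transpose_apply, Matrix.of_apply]
    rw [HS1_dd hf, HS1_dd hf, HS1_symm hf]
  · -- the quadratic form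
    have hq : ∀ x v : E m, 0 ≤ fderiv ℝ (fderiv ℝ f) x v v := by
      intro x v
      have h := (hp x).dotProduct_mulVec_nonneg (fun i => v i)
      have h1 : v = ∑ i, v i • (e i : E m) := (HS1_sum v).symm
      rw [h1]
      simp only [map_sum, map_smul, FunLike.coe_sum, FunLike.coe_smul, Finset.sum_apply,
        Pi.smul_apply, smul_eq_mul]
      simp only [dotProduct, Matrix.mulVec, hess, Matrix.of_apply, star_trivial,
        Pi.star_apply] at h
      simp only [HS1_dd hf] at h
      refine h.trans_eq ?_
      simp only [Finset.mul_sum]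
      rw [Finset.sum_comm]
      refine Finset.sum_congr rfl fun i _ => Finset.sum_congr rfl fun j _ => ?_
      ring
    have hgd : ∀ (x v : E m) (t : ℝ), HasDerivAt (fun t : ℝ => f (x + t • v))
        (fderiv ℝ f (x + t • v) v) t := by
      intro x v t
      have h1 : HasFDerivAt f (fderiv ℝ f (x + t • v)) (x + t • v) :=
        (hf.differentiable (by simp) _).hasFDerivAt
      have h2 : HasDerivAt (fun t : ℝ => x + t • v) v t := by
        simpa using ((hasDerivAt_id t).smul_const v).const_add x
      exact h1.comp_hasDerivAt t h2
    have hd2 : ∀ (x v : E m) (t : ℝ), HasDerivAt (fun t : ℝ => fderiv ℝ f (x + t • v) v)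
        (fderiv ℝ (fderiv ℝ f) (x + t • v) v v) t := by
      intro x v t
      have h1 : HasFDerivAt (fderiv ℝ f) (fderiv ℝ (fderiv ℝ f) (x + t • v)) (x + t • v) :=
        ((hf.fderiv_right (m := ∞) (by simp)).differentiable (by simp) _).hasFDerivAt
      have h2 : HasDerivAt (fun t : ℝ => x + t • v) v t := by
        simpa using ((hasDerivAt_id t).smul_const v).const_add x
      have h3 := h1.comp_hasDerivAt t h2
      have h4 := h3.clm_apply (hasDerivAt_const t v)
      simpa using h4
    have hline : ∀ x v : E m, ConvexOn ℝ univ (fun t : ℝ => f (x + t • v)) := by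
      intro x v
      have hderiv : deriv (fun t : ℝ => f (x + t • v)) = fun t => fderiv ℝ f (x + t • v) v := by
        funext t
        exact (hgd x v t).deriv
      refine convexOn_univ_of_deriv2_nonneg (fun t => (hgd x v t).differentiableAt) ?_ ?_
      · rw [hderiv]
        exact fun t => (hd2 x v t).differentiableAt
      · intro t
        rw [Function.iterate_succ_apply, Function.iterate_one, hderiv, (hd2 x v t).deriv]
        exact hq _ _
    refine ⟨convex_univ, ?_⟩
    intro x _ y _ a b ha hb hab
    have h1 := (hline x (y - x)).2 (mem_univ 0) (mem_univ 1) ha hb hab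
    have h2 : x + (a • (0 : ℝ) + b • (1 : ℝ)) • (y - x) = a • x + b • y := by
      have h3 : a = 1 - b := by linarith
      rw [h3]
      simp only [smul_eq_mul, mul_zero, mul_one, zero_add]
      rw [smul_sub, sub_smul, one_smul]
      abel
    simp only [h2, zero_smul, add_zero, one_smul, add_sub_cancel] at h1
    exact h1

end Pool.Agent.helper69.SN
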