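import Pool.Agent.helper69.SN.SpecA

/-!
Row aMAX of the project MP_d2d7b9_gt (sn): the maximum principle.
-/

open scoped Pointwise ContDiff
open MeasureTheory Set Filter Topology

namespace Pool.Agent.helper69.SN

open Pool.Agent.helper83.SC

theorem aMAX_of (hZER : aZER_stmt) : aMAX_stmt := by
  intro m n A _ S hS K c hc hmem
  have h1 := hmem.2 c hc.le
  rw [neg_add_cancel, hZER _ S hS (fun i hi => by
    simp only [sc, wt, if_neg hi, Finset.notMem_empty, if_false, zero_smul])] at h1
  exact absurd h1 (not_le.2 (pow_pos hc m))

end Pool.Agent.helper69.SN
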