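import Pool.Agent.helper69.SN.SpecB

/-!
Row bPER of the project MP_d2d7b9_gt (sn): the Perron function.
-/

open scoped Pointwise ContDiff
open MeasureTheory Set Filter Topology

namespace Pool.Agent.helper69.SN

open Pool.Agent.helper83.SC

theorem PER_bdd {m : ℕ} (hm : 1 ≤ m) {U : Set (E m)} (hU : Bornology.IsBounded U)
    (κ₀ : E m → ℝ) (x : E m) : ∃ C : ℝ, ∀ κ : E m → ℝ, CV κ →
      (∀ y, y ∉ U → κ y ≤ κ₀ y) → κ x ≤ C := by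
  obtain ⟨R, hR⟩ := hU.subset_closedBall (0 : E m)
  obtain ⟨v, hv⟩ : ∃ v : E m, ‖v‖ = 1 := by
    refine ⟨e (⟨0, hm⟩ : Fin m), ?_⟩
    simp [e]
  obtain ⟨s, hs⟩ : ∃ s : ℝ, s = |R| + ‖x‖ + 1 := ⟨_, rfl⟩
  have hs0 : 0 ≤ s := by rw [hs]; positivity
  have hout : ∀ y : E m, y ∈ U → ‖y‖ ≤ R := fun y hy => by
    simpa using hR hy
  have h1 : x + s • v ∉ U := by
    intro h
    have h2 := hout _ h
    have h3 : ‖s • v‖ ≤ ‖x + s • v‖ + ‖x‖ := by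
      have := norm_sub_le (x + s • v) x
      rwa [add_sub_cancel_left] at this
    rw [norm_smul, hv, mul_one, Real.norm_of_nonneg hs0] at h3
    have h4 := le_abs_self R
    linarith
  have h2 : x - s • v ∉ U := by
    intro h
    have h2 := hout _ h
    have h3 : ‖s • v‖ ≤ ‖x‖ + ‖x - s • v‖ := by
      have := norm_sub_le x (x - s • v)
      rwa [sub_sub_cancel] at this
    rw [norm_smul, hv, mul_one, Real.norm_of_nonneg hs0] at h3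
    have h4 := le_abs_self R
    linarith
  refine ⟨(1 / 2) * κ₀ (x + s • v) + (1 / 2) * κ₀ (x - s • v), fun κ hκ hle => ?_⟩
  have h3 := hκ.2 (mem_univ (x + s • v)) (mem_univ (x - s • v)) (by norm_num : (0 : ℝ) ≤ 1 / 2)
    (by norm_num : (0 : ℝ) ≤ 1 / 2) (by norm_num)
  have h4 : (1 / 2 : ℝ) • (x + s • v) + (1 / 2 : ℝ) • (x - s • v) = x := by
    rw [← smul_add]
    have : x + s • v + (x - s • v) = (2 : ℝ) • x := by rw [two_smul]; abel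
    rw [this, smul_smul]
    norm_num
  rw [h4, smul_eq_mul, smul_eq_mul] at h3
  have h5 := hle _ h1
  have h6 := hle _ h2
  linarith

theorem bPER_of (hCLS : bCLS_stmt) (hSUP : bSUP_stmt) : bPER_stmt := by
  intro m n hm B hB U κ₀ hU h0
  have hne : ∀ x, {t | ∃ κ, Cls B κ ∧ (∀ y, y ∉ U → κ y ≤ κ₀ y) ∧ t = κ x}.Nonempty :=
    fun x => ⟨κ₀ x, κ₀, h0, fun _ _ => le_rfl, rfl⟩
  have hbd : ∀ x, BddAbove {t | ∃ κ, Cls B κ ∧ (∀ y, y ∉ U → κ y ≤ κ₀ y) ∧ t = κ x} := by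
    intro x
    obtain ⟨C, hC⟩ := PER_bdd hm hU κ₀ x
    refine ⟨C, ?_⟩
    rintro t ⟨κ, h1, h2, rfl⟩
    exact hC κ ((hCLS B hB).2.1 κ h1).1 h2
  have hlub : ∀ x, IsLUB {t | ∃ κ, Cls B κ ∧ (∀ y, y ∉ U → κ y ≤ κ₀ y) ∧ t = κ x}
      (per B U κ₀ x) := fun x => isLUB_csSup (hne x) (hbd x)
  have hmax : ∀ κ, Cls B κ → (∀ y, y ∉ U → κ y ≤ κ₀ y) → ∀ x, κ x ≤ per B U κ₀ x :=
    fun κ h1 h2 x => (hlub x).1 ⟨κ, h1, h2, rfl⟩
  refine ⟨?_, hmax κ₀ h0 fun _ _ => le_rfl, fun x hx => ?_, hmax⟩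
  · refine hSUP B hB {κ | Cls B κ ∧ ∀ y, y ∉ U → κ y ≤ κ₀ y} _ ⟨κ₀, h0, fun _ _ => le_rfl⟩
      (fun κ hκ => hκ.1) fun x => ?_
    have h1 : {t | ∃ κ ∈ {κ | Cls B κ ∧ ∀ y, y ∉ U → κ y ≤ κ₀ y}, t = κ x}
        = {t | ∃ κ, Cls B κ ∧ (∀ y, y ∉ U → κ y ≤ κ₀ y) ∧ t = κ x} := by
      ext t
      constructor
      · rintro ⟨κ, ⟨h2, h3⟩, h4⟩
        exact ⟨κ, h2, h3, h4⟩
      · rintro ⟨κ, h2, h3, h4⟩
        exact ⟨κ, ⟨h2, h3⟩, h4⟩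
    rw [h1]
    exact hlub x
  · refine le_antisymm ((hlub x).2 ?_) (hmax κ₀ h0 (fun _ _ => le_rfl) x)
    rintro t ⟨κ, h2, h3, rfl⟩
    exact h3 x hx

end Pool.Agent.helper69.SN
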