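import Pool.Agent.helper69.SN.SpecB

/-!
Row bSUP of the project MP_d2d7b9_gt (sn): suprema of families.
-/

open scoped Pointwise ContDiff
open MeasureTheory Set Filter Topology

namespace Pool.Agent.helper69.SN

open Pool.Agent.helper83.SC

theorem bSUP_of (hCLS : bCLS_stmt) (hGLU : bGLU_stmt) : bSUP_stmt := by
  intro m n B hB Fam f hne hFam hf
  obtain ⟨κ₀, h0⟩ := hne
  have hle : ∀ κ ∈ Fam, ∀ x, κ x ≤ f x := fun κ hκ x => (hf x).1 ⟨κ, hκ, rfl⟩
  have hcv : ∀ κ ∈ Fam, CV κ := fun κ hκ => ((hCLS B hB).2.1 κ (hFam κ hκ)).1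
  have hct : ∀ κ ∈ Fam, Continuous κ := fun κ hκ => ((hCLS B hB).2.1 κ (hFam κ hκ)).2
  have hfc : CV f := by
    refine ⟨convex_univ, ?_⟩
    intro x _ y _ a b ha hb hab
    refine (hf _).2 ?_
    rintro t ⟨κ, hκ, rfl⟩
    refine ((hcv κ hκ).2 (mem_univ x) (mem_univ y) ha hb hab).trans ?_
    simp only [smul_eq_mul]
    exact add_le_add (mul_le_mul_of_nonneg_left (hle κ hκ x) ha)
      (mul_le_mul_of_nonneg_left (hle κ hκ y) hb)
  have hfcont : Continuous f := continuousOn_univ.1 (ConvexOn.continuousOn isOpen_univ hfc)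
  have hfin : ∀ s : Finset (E m → ℝ), (∀ g ∈ s, g ∈ Fam) →
      ∃ κ, Cls B κ ∧ (∀ y, κ y ≤ f y) ∧ ∀ g ∈ s, ∀ y, g y ≤ κ y := by
    classical
    intro s
    induction s using Finset.induction_on with
    | empty => exact fun _ => ⟨κ₀, hFam _ h0, hle _ h0, by simp⟩
    | insert g s hg ih =>
      intro hs
      obtain ⟨κ, h1, h2, h3⟩ := ih (fun g' hg' => hs g' (Finset.mem_insert_of_mem hg'))
      have hgF := hs g (Finset.mem_insert_self _ _)
      refine ⟨fun x => max (κ x) (g x), ?_, fun y => max_le (h2 y) (hle _ hgF y), ?_⟩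
      · exact hGLU B hB univ κ g h1 (((hCLS B hB).2.2.2.2 g).1 (hFam g hgF))
          (fun R => ⟨1, one_pos, fun x _ hx => absurd (mem_univ x) hx⟩)
      · intro g' hg' y
        rcases Finset.mem_insert.1 hg' with h | h
        · rw [h]
          exact le_max_right _ _
        · exact (h3 g' h y).trans (le_max_left _ _)
  refine (hCLS B hB).2.2.2.1 f fun R ε hε => ?_
  have hch : ∀ x, ∃ κ ∈ Fam, f x - ε < κ x := by
    intro x
    obtain ⟨t, ⟨κ, hκ, rfl⟩, h, -⟩ := (hf x).exists_between (by linarith : f x - ε < f x)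
    exact ⟨κ, hκ, h⟩
  choose κ hκ hκ2 using hch
  obtain ⟨t, -, ht⟩ := (isCompact_closedBall (0 : E m) R).elim_nhds_subcover
    (fun x => {y | f y - ε < κ x y}) (fun x _ =>
      (isOpen_lt (hfcont.sub continuous_const) (hct _ (hκ x))).mem_nhds (hκ2 x))
  classical
  obtain ⟨κ', h1, h2, h3⟩ := hfin (t.image κ) (fun g hg => by
    obtain ⟨x, -, rfl⟩ := Finset.mem_image.1 hg
    exact hκ x)
  refine ⟨κ', h1, fun y hy => ?_⟩
  have hy' : y ∈ Metric.closedBall (0 : E m) R := by simpa using hy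
  obtain ⟨x, hx, hxy⟩ := mem_iUnion₂.1 (ht hy')
  have h4 : f y - ε < κ x y := hxy
  have h5 := h3 (κ x) (Finset.mem_image_of_mem _ hx) y
  have h6 := h2 y
  rw [abs_le]
  constructor <;> linarith

end Pool.Agent.helper69.SN
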