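import Pool.Agent.helper28.SN.SpecC

/-!
Row cMDZ of the project MP_d2d7b9_gt (sn): the integral of the mixed discriminant of Hessians, one
of the functions with compact support, vanishes.
-/

set_option autoImplicit false

open scoped Pointwise ContDiff
open MeasureTheory Set Filter Topology Pool.Agent.helper83.SC Pool.Agent.helper69.SN

namespace Pool.Agent.helper28.SN

theorem cMDZ_jac_cont {m : ℕ} (hPD : cPD_stmt) (g : Fin m → E m → ℝ)
    (hg : ∀ i, ContDiff ℝ ∞ (g i)) : Continuous (jac g) := by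
  unfold jac
  refine Continuous.matrix_det ?_
  refine continuous_matrix fun i j => ?_
  simp only [Matrix.of_apply]
  exact (hPD j j (g i) (hg i)).1.continuous

theorem cMDZ_jac_zero {m : ℕ} (g : Fin m → E m → ℝ) (i₁ : Fin m) (x : E m)
    (hx : x ∉ tsupport (g i₁)) : jac g x = 0 := by
  unfold jac
  refine Matrix.det_eq_zero_of_row_eq_zero i₁ fun j => ?_
  simp only [Matrix.of_apply, pd]
  rw [fderiv_of_notMem_tsupport ℝ hx]
  rfl

theorem cMDZ (hPD : cPD_stmt) (hJ : cJAC_stmt) : cMDZ_stmt := by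
  intro m f i₀ hf hc
  have hgs : ∀ (σ : Equiv.Perm (Fin m)) i, ContDiff ℝ ∞ (pd i (f (σ i))) :=
    fun σ i => (hPD i i (f (σ i)) (hf _)).1
  have hgc : ∀ σ : Equiv.Perm (Fin m), HasCompactSupport (pd (σ.symm i₀) (f (σ (σ.symm i₀)))) := by
    intro σ
    rw [Equiv.apply_symm_apply]
    exact (hPD _ i₀ (f i₀) (hf _)).2.1 hc
  have h1 : ∀ x, mD (fun j => hess (f j) x)
      = (1 / (m.factorial : ℝ)) * ∑ σ : Equiv.Perm (Fin m), jac (fun i => pd i (f (σ i))) x := by
    intro x
    unfold mD jac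
    congr 1
    refine Finset.sum_congr rfl fun σ _ => ?_
    congr 1
    ext i j
    simp only [Matrix.of_apply, hess]
    exact (hPD i j (f (σ i)) (hf _)).2.2.1 x
  have h2 : ∀ σ : Equiv.Perm (Fin m), Integrable (jac (fun i => pd i (f (σ i)))) := by
    intro σ
    refine (cMDZ_jac_cont hPD _ (hgs σ)).integrable_of_hasCompactSupport ?_
    exact HasCompactSupport.intro (hgc σ) fun x hx => cMDZ_jac_zero _ (σ.symm i₀) x hx
  have h3 : (fun x => mD (fun j => hess (f j) x))
      = fun x => (1 / (m.factorial : ℝ)) *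
        ∑ σ : Equiv.Perm (Fin m), jac (fun i => pd i (f (σ i))) x := funext h1
  have h4 : ∫ x, ∑ σ : Equiv.Perm (Fin m), jac (fun i => pd i (f (σ i))) x
      = ∑ σ : Equiv.Perm (Fin m), ∫ x, jac (fun i => pd i (f (σ i))) x :=
    integral_finsetSum _ fun σ _ => h2 σ
  have h5 : ∀ σ : Equiv.Perm (Fin m), ∫ x, jac (fun i => pd i (f (σ i))) x = 0 :=
    fun σ => hJ (fun i => pd i (f (σ i))) (σ.symm i₀) (hgs σ) (hgc σ)
  rw [h3, integral_const_mul, h4, Finset.sum_eq_zero fun σ _ => h5 σ, mul_zero]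

end Pool.Agent.helper28.SN
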