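import Pool.Agent.helper40.SN.SpecD

/-!
Row dXQ of the project MP_d2d7b9_gt (sn): first properties of the function `X`.
-/

open scoped Pointwise ContDiff
open MeasureTheory Set Filter Topology Pool.Agent.helper83.SC Pool.Agent.helper69.SN

namespace Pool.Agent.helper40.SN

theorem dXQ_add {m : ℕ} {f g : E m → ℝ} (hf : SmC f) (hg : SmC g) :
    SmC (fun x => f x + g x) := ⟨hf.1.add hg.1, hf.2.add hg.2⟩

theorem dXQ_smul {m : ℕ} {f : E m → ℝ} (hf : SmC f) (c : ℝ) (hc : 0 ≤ c) :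
    SmC (fun x => c * f x) := by
  refine ⟨contDiff_const.mul hf.1, ?_⟩
  have h := hf.2.smul hc
  simpa only [CV, smul_eq_mul] using h

theorem dXQ_sum {m n : ℕ} {a : Fin n → E m → ℝ} (ha : ∀ i, SmC (a i)) (S : Finset (Fin n)) :
    SmC (fun x => ∑ i ∈ S, a i x) := by
  classical
  induction S using Finset.induction_on with
  | empty =>
    simp only [Finset.sum_empty]
    exact ⟨contDiff_const, convexOn_const 0 convex_univ⟩
  | insert i S hi ih =>
    simp only [Finset.sum_insert hi]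
    exact dXQ_add (ha i) ih

theorem dXQ_wt_sum {m n : ℕ} (T J : Finset (Fin n)) (hTJ : Disjoint T J) (K s : ℝ)
    (A : Fin n → Mat m) :
    ∑ i, wt T K J s i • A i = K • ∑ i ∈ T, A i + s • ∑ i ∈ J, A i := by
  classical
  have h1 : ∀ i, wt T K J s i • A i
      = (if i ∈ T then K • A i else 0) + (if i ∈ J then s • A i else 0) := by
    intro i
    unfold wt
    by_cases h : i ∈ T
    · have h2 : i ∉ J := Finset.disjoint_left.1 hTJ h
      rw [if_pos h, if_pos h, if_neg h2, add_zero]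
    · rw [if_neg h, if_neg h, zero_add]
      by_cases h2 : i ∈ J
      · rw [if_pos h2, if_pos h2]
      · rw [if_neg h2, if_neg h2, zero_smul]
  rw [Finset.sum_congr rfl fun i _ => h1 i, Finset.sum_add_distrib, Finset.sum_ite_mem,
    Finset.sum_ite_mem, Finset.univ_inter, Finset.univ_inter, Finset.smul_sum, Finset.smul_sum]

theorem dXQ_wt_off {m n : ℕ} (T J : Finset (Fin n)) (hTJ : Disjoint T J) (K s : ℝ)
    (A : Fin n → Mat m) :
    (fun i => if i ∈ J then (0 : Mat m) else wt T K J s i • A i)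
      = sc (wt T K ∅ 0) A := by
  classical
  funext i
  unfold sc wt
  by_cases h : i ∈ T
  · have h2 : i ∉ J := Finset.disjoint_left.1 hTJ h
    rw [if_neg h2, if_pos h, if_pos h]
  · rw [if_neg h, if_neg h, if_neg (Finset.notMem_empty i), zero_smul]
    by_cases h2 : i ∈ J
    · rw [if_pos h2]
    · rw [if_neg h2, if_neg h2, zero_smul]

theorem dXQ_wt_J {m n : ℕ} (T J : Finset (Fin n)) (hTJ : Disjoint T J) (K s : ℝ)
    (A : Fin n → Mat m) :
    ∑ i ∈ J, wt T K J s i • A i = s • ∑ i ∈ J, A i := by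
  classical
  rw [Finset.smul_sum]
  refine Finset.sum_congr rfl fun i hi => ?_
  unfold wt
  rw [if_neg (Finset.disjoint_right.1 hTJ hi), if_pos hi]

theorem dXQ_cut (δ t : ℝ) : 0 ≤ cut δ t ∧ cut δ t ≤ 1 :=
  ⟨le_min zero_le_one (le_max_left _ _), min_le_left _ _⟩

theorem dXQ_wt_nonneg {n : ℕ} (T J : Finset (Fin n)) (K s : ℝ) (hK : 0 ≤ K) (hs : 0 ≤ s)
    (i : Fin n) : 0 ≤ wt T K J s i := by
  unfold wt
  split_ifs
  · exact hK
  · exact hs
  · exact le_rfl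

theorem dXQ_psd {m n : ℕ} (hP : hess_psd_stmt) {a : Fin n → E m → ℝ} (ha : ∀ i, SmC (a i))
    (lam : Fin n → ℝ) (hl : ∀ i, 0 ≤ lam i) (x : E m) : Psd (hs a lam x) :=
  fun i => (hP (ha i).1 (ha i).2 x).smul (hl i)

theorem dXQ_hsum {m n : ℕ} (hSum : hess_sum_stmt) {a : Fin n → E m → ℝ} (ha : ∀ i, SmC (a i))
    (S : Finset (Fin n)) (x : E m) :
    hess (fun y => ∑ i ∈ S, a i y) x = ∑ i ∈ S, hess (a i) x :=
  hSum S (fun i => (ha i).1) x

theorem dXQ_psdsum {m n : ℕ} (hP : hess_psd_stmt) {a : Fin n → E m → ℝ} (ha : ∀ i, SmC (a i))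
    (S : Finset (Fin n)) (x : E m) : (∑ i ∈ S, hess (a i) x).PosSemidef := by
  classical
  induction S using Finset.induction_on with
  | empty =>
    rw [Finset.sum_empty]
    exact Matrix.PosSemidef.zero
  | insert i S hi ih =>
    rw [Finset.sum_insert hi]
    exact (hP (ha i).1 (ha i).2 x).add ih

theorem dXQ (hPER : bPER_stmt) (hCLS : bCLS_stmt) (hSCD : bSCD_stmt) (hBSM : aBSM_stmt)
    (hMAX : aMAX_stmt) (hCLO : aCLO_stmt) (hPSD : aPSD_stmt) (hGEO : dGEO_stmt)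
    (hP : hess_psd_stmt) (hAdd : hess_add_stmt) (hSmul : hess_smul_stmt)
    (hSum : hess_sum_stmt) (hNsq : hess_normSq_stmt) : dXQ_stmt := by
  intro m n S T D r ρ K δ L a hTS hTm hρ hK hδ ha hG
  have hm : 1 ≤ m := by omega
  have hdis : Disjoint T (S \ T) := Finset.disjoint_sdiff
  obtain ⟨B, hBdef⟩ : ∃ B : E m → Fin n → Mat m,
      B = fun y => hs a (wt T K (S \ T) (cut δ (wf S D r a y))) y := ⟨_, rfl⟩
  obtain ⟨κ₀, hκ₀def⟩ : ∃ κ₀ : E m → ℝ,
      κ₀ = fun y => Gf S T D a y + K * ∑ i ∈ T, a i y := ⟨_, rfl⟩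
  obtain ⟨κ, hκdef⟩ : ∃ κ : E m → ℝ, κ = per B (Metric.ball 0 (2 * ρ)) κ₀ := ⟨_, rfl⟩
  have hXf : ∀ x, Xf S T D r ρ K δ a x = κ x - K * ∑ i ∈ T, a i x := by
    intro x
    rw [hκdef, hBdef, hκ₀def]
    rfl
  have hBpsd : ∀ x, Psd (B x) := by
    intro x
    rw [hBdef]
    exact dXQ_psd hP ha _ (dXQ_wt_nonneg _ _ _ _ hK (dXQ_cut _ _).1) x
  have hBsum : ∀ x, ∑ i, B x i = K • ∑ i ∈ T, hess (a i) x
      + (cut δ (wf S D r a x)) • ∑ i ∈ S \ T, hess (a i) x := by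
    intro x
    rw [hBdef]
    exact dXQ_wt_sum T (S \ T) hdis K _ (fun i => hess (a i) x)
  have hGs : SmC (Gf S T D a) := dXQ_add (hGEO D).1 (dXQ_sum ha (S \ T))
  have hTs : SmC (fun y => K * ∑ i ∈ T, a i y) := dXQ_smul (dXQ_sum ha T) K hK
  have hκ₀s : SmC κ₀ := by
    rw [hκ₀def]
    exact dXQ_add hGs hTs
  have hTh : ∀ x, hess (fun y => K * ∑ i ∈ T, a i y) x = K • ∑ i ∈ T, hess (a i) x := by
    intro x
    rw [hSmul (dXQ_sum ha T).1 K x, dXQ_hsum hSum ha]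
  have hκ₀h : ∀ x, hess κ₀ x = hess (Qf D) x + ∑ i ∈ S \ T, hess (a i) x
      + K • ∑ i ∈ T, hess (a i) x := by
    intro x
    rw [hκ₀def, hAdd hGs.1 hTs.1 x, hTh]
    congr 1
    have h1 : Gf S T D a = fun y => Qf D y + ∑ j ∈ S \ T, a j y := rfl
    rw [h1, hAdd (hGEO D).1.1 (dXQ_sum ha (S \ T)).1 x, dXQ_hsum hSum ha]
  have hcls0 : Cls B κ₀ := by
    refine (hCLS B hBpsd).1 κ₀ hκ₀s fun x => hPSD (B x) (hBpsd x) _ ?_
    have h1 : hess κ₀ x - ∑ i, B x i
        = hess (Qf D) x + (1 - cut δ (wf S D r a x)) • ∑ i ∈ S \ T, hess (a i) x := by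
      rw [hκ₀h, hBsum, sub_smul, one_smul]
      abel
    rw [h1]
    exact ((hGEO D).2.1 x).add ((dXQ_psdsum hP ha _ x).smul
      (by linarith [(dXQ_cut δ (wf S D r a x)).2]))
  obtain ⟨h1, h2, h3, -⟩ := hPER hm B hBpsd (Metric.ball 0 (2 * ρ)) κ₀ Metric.isBounded_ball hcls0
  rw [← hκdef] at h1 h2 h3
  have hκc := ((hCLS B hBpsd).2.1 κ h1).2
  have hTc : Continuous (fun y : E m => K * ∑ i ∈ T, a i y) := hTs.1.continuous
  have hoff : ∀ x, x ∉ Metric.ball (0 : E m) (2 * ρ) → Xf S T D r ρ K δ a x = Gf S T D a x := by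
    intro x hx
    rw [hXf, h3 x hx, hκ₀def]
    ring
  refine ⟨?_, ?_, hoff, ?_, ?_⟩
  · have h4 : Xf S T D r ρ K δ a = fun x => κ x - K * ∑ i ∈ T, a i x := funext hXf
    rw [h4]
    exact hκc.sub hTc
  · intro x
    rw [hXf]
    have h4 := h2 x
    rw [hκ₀def] at h4
    have h5 : Gf S T D a x + K * ∑ i ∈ T, a i x ≤ κ x := h4
    linarith
  · -- the upper bound
    intro x hx
    refine le_of_forall_pos_le_add fun t ht => ?_
    obtain ⟨s, hsdef⟩ : ∃ s : ℝ, s = t / (2 + 4 * ρ ^ 2) := ⟨_, rfl⟩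
    have hs : 0 < s := by rw [hsdef]; positivity
    have hst : 2 * s + s * (2 * ρ) ^ 2 = t := by
      rw [hsdef]
      field_simp
      ring
    obtain ⟨κ', hκ's, hκ'c, hκ'h⟩ := h1 (2 * ρ + 1) s hs
    obtain ⟨X', hX'def⟩ : ∃ X' : E m → ℝ,
        X' = fun y => κ' y + (-1) * (K * ∑ i ∈ T, a i y) := ⟨_, rfl⟩
    obtain ⟨f, hfdef⟩ : ∃ f : E m → ℝ, f = fun y => X' y + (2 * s) * ‖y‖ ^ 2 / 2 := ⟨_, rfl⟩
    have hX's : ContDiff ℝ ∞ X' := by
      rw [hX'def]
      exact hκ's.1.add (contDiff_const.mul hTs.1)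
    have hns : ContDiff ℝ ∞ (fun y : E m => (2 * s) * ‖y‖ ^ 2 / 2) :=
      (contDiff_const.mul (contDiff_norm_sq ℝ)).div_const 2
    have hfs : ContDiff ℝ ∞ f := by
      rw [hfdef]
      exact hX's.add hns
    have hX'h : ∀ y, hess X' y = hess κ' y - K • ∑ i ∈ T, hess (a i) y := by
      intro y
      rw [hX'def, hAdd hκ's.1 (contDiff_const.mul hTs.1) y, hSmul hTs.1 (-1) y, hTh, neg_smul,
        one_smul, sub_eq_add_neg]
    have hfh : ∀ y, hess f y = hess X' y + (2 * s) • (1 : Mat m) := by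
      intro y
      rw [hfdef, hAdd hX's hns y, hNsq]
    have hX'G : ∀ y, ‖y‖ ≤ 2 * ρ + 1 → hess X' y ∈ GG (sc (wt T K ∅ 0) fun i => hess (a i) y) := by
      intro y hy
      have h4 := (hBSM (B y) (hBpsd y) _ (hκ'h y hy)).1 (S \ T)
      have h5 : hess κ' y - ∑ i, B y i + ∑ i ∈ S \ T, B y i = hess X' y := by
        have h6 : ∑ i ∈ S \ T, B y i
            = (cut δ (wf S D r a y)) • ∑ i ∈ S \ T, hess (a i) y := by
          rw [hBdef]
          exact dXQ_wt_J T (S \ T) hdis K _ fun i => hess (a i) y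
        rw [hX'h, hBsum, h6]
        abel
      have h7 : (fun i => if i ∈ S \ T then (0 : Mat m) else B y i)
          = sc (wt T K ∅ 0) fun i => hess (a i) y := by
        rw [hBdef]
        exact dXQ_wt_off T (S \ T) hdis K _ fun i => hess (a i) y
      rw [h5, h7] at h4
      exact h4
    have hApsd : ∀ y : E m, Psd (fun i => hess (a i) y) :=
      fun y i => hP (ha i).1 (ha i).2 y
    have hscpsd : ∀ y : E m, Psd (sc (wt T K ∅ 0) fun i => hess (a i) y) :=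
      fun y i => (hApsd y i).smul (dXQ_wt_nonneg T ∅ K 0 hK le_rfl i)
    obtain ⟨x₁, hx₁, hmax⟩ := (isCompact_closedBall (0 : E m) (2 * ρ)).exists_isMaxOn
      ⟨0, by simp [hρ.le]⟩ hfs.continuous.continuousOn
    have hx₁' : ‖x₁‖ ≤ 2 * ρ := by simpa using hx₁
    have hx₁n : ¬ ‖x₁‖ < 2 * ρ := by
      intro hlt
      have hloc : IsLocalMax f x₁ := by
        have h4 : Metric.closedBall (0 : E m) (2 * ρ) ∈ 𝓝 x₁ :=
          mem_of_superset (Metric.isOpen_ball.mem_nhds (by simpa using hlt))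
            Metric.ball_subset_closedBall
        exact hmax.isLocalMax h4
      have h5 := hSCD hfs hloc
      have h6 := (hCLO _ (hscpsd x₁)).2.1 _ _ (hX'G x₁ (by linarith)) h5
      have h7 : hess X' x₁ + -(hess f x₁) = -((2 * s) • (1 : Mat m)) := by
        rw [hfh]
        abel
      rw [h7] at h6
      exact hMAX _ (hApsd x₁) T hTm K (2 * s) (by linarith) h6
    have h4 : f x ≤ f x₁ := hmax (by simpa using hx)
    have h5 : κ x - K * ∑ i ∈ T, a i x ≤ f x + s := by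
      have h6 := (abs_le.1 (hκ'c x (by linarith))).1
      have h7 : f x = κ' x + (-1) * (K * ∑ i ∈ T, a i x) + (2 * s) * ‖x‖ ^ 2 / 2 := by
        rw [hfdef, hX'def]
      rw [h7]
      have h8 : 0 ≤ (2 * s) * ‖x‖ ^ 2 / 2 := by positivity
      linarith
    have h6 : f x₁ ≤ L + s + s * (2 * ρ) ^ 2 := by
      have h7 : f x₁ = κ' x₁ + (-1) * (K * ∑ i ∈ T, a i x₁) + (2 * s) * ‖x₁‖ ^ 2 / 2 := by
        rw [hfdef, hX'def]
      have h8 := (abs_le.1 (hκ'c x₁ (by linarith))).2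
      have h9 := hoff x₁ (by simpa using not_lt.1 hx₁n)
      rw [hXf] at h9
      have h10 := (abs_le.1 (hG x₁ hx₁')).2
      have h11 : (2 * s) * ‖x₁‖ ^ 2 / 2 ≤ s * (2 * ρ) ^ 2 := by
        have h12 : ‖x₁‖ ^ 2 ≤ (2 * ρ) ^ 2 := pow_le_pow_left₀ (norm_nonneg _) hx₁' 2
        nlinarith
      rw [h7]
      linarith
    rw [hXf]
    linarith
  · have h4 : (fun y => Xf S T D r ρ K δ a y + K * ∑ i ∈ T, a i y) = κ := by
      funext y
      rw [hXf]
      ring
    rw [h4, ← hBdef]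
    exact h1

end Pool.Agent.helper40.SN
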