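import Pool.Agent.helper40.SN.SpecD
import Pool.Agent.helper77.SN.dXQ

/-!
Row dCAP of the project MP_d2d7b9_gt (sn): the cap.
-/

open scoped Pointwise ContDiff
open MeasureTheory Set Filter Topology Pool.Agent.helper83.SC Pool.Agent.helper69.SN

namespace Pool.Agent.helper40.SN

theorem dCAP_qf {m : ℕ} (γ : ℝ) (x : E m) : qf (γ • (1 : Mat m)) x = γ * ‖x‖ ^ 2 := by
  unfold qf
  have h1 : ∀ i, ∑ j, x i * (γ • (1 : Mat m)) i j * x j = γ * x i ^ 2 := by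
    intro i
    rw [Finset.sum_eq_single i]
    · simp only [Matrix.smul_apply, Matrix.one_apply_eq, smul_eq_mul, mul_one]
      ring
    · intro j _ hj
      simp [Matrix.one_apply_ne' hj]
    · intro h
      exact absurd (Finset.mem_univ i) h
  rw [Finset.sum_congr rfl fun i _ => h1 i, ← Finset.mul_sum, EuclideanSpace.norm_sq_eq]
  simp

theorem dCAP_cv {m n : ℕ} {h : Fin n → E m → ℝ} (hc : ∀ i, CV (h i)) (S : Finset (Fin n)) : CV (fun x => ∑ j ∈ S, h j x) := by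
  classical
  induction S using Finset.induction_on with
  | empty =>
    simp only [Finset.sum_empty]
    exact convexOn_const 0 convex_univ
  | insert i S hi ih =>
    simp only [Finset.sum_insert hi]
    exact (hc i).add ih

theorem dCAP_hall {m n : ℕ} (S T : Finset (Fin n)) (D D' : Submodule ℝ (E m))
    (h : Fin n → E m → ℝ) (hTS : T ⊆ S) (hH : Hall S D h)
    (hD' : ∀ v, v ∈ D' ↔ v ∈ D ∧ ∀ j ∈ S \ T, FlatAt (h j) 0 v) :
    Module.finrank ℝ D' ≤ T.card ∧ Hall T D' h := by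
  have hle : D' ≤ D := fun v hv => ((hD' v).1 hv).1
  have hcard : (S \ T).card + T.card = S.card := Finset.card_sdiff_add_card_eq_card hTS
  refine ⟨?_, ?_⟩
  · have h1 := hH (S \ T) Finset.sdiff_subset D' hle fun v hv i hi => ((hD' v).1 hv).2 i hi
    omega
  · intro I hI W hW hflat
    have hdis : Disjoint I (S \ T) := Finset.disjoint_of_subset_left hI Finset.disjoint_sdiff
    have h1 := hH (I ∪ (S \ T)) (Finset.union_subset (hI.trans hTS) Finset.sdiff_subset) W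
      (hW.trans hle) (fun v hv i hi => by
        rcases Finset.mem_union.1 hi with h2 | h2
        · exact hflat v hv i h2
        · exact ((hD' v).1 (hW hv)).2 i h2)
    rw [Finset.card_union_of_disjoint hdis] at h1
    omega

theorem dCAP (hGEO : dGEO_stmt) (hSTR : dSTR_stmt) (hJEN : dJEN_stmt) (hQUA : bQUA_stmt)
    (hCLO : aCLO_stmt) (hFS : flat_submodule_stmt) (hFA : flat_add_stmt) (hFSum : flat_sum_stmt)
    (hP : hess_psd_stmt) (hAdd : hess_add_stmt) (hSmul : hess_smul_stmt) : dCAP_stmt := by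
  intro m n S T D h hTS hEP hh hH ρ hρ
  -- the submodule
  obtain ⟨W, hW⟩ := hFS (dCAP_cv hh (S \ T)) 0
  obtain ⟨D', hD'⟩ : ∃ D' : Submodule ℝ (E m), ∀ v, v ∈ D' ↔ v ∈ D ∧ ∀ j ∈ S \ T, FlatAt (h j) 0 v := by
    refine ⟨D ⊓ W, fun v => ?_⟩
    rw [Submodule.mem_inf, hW, hFSum (S \ T) hh 0 v]
  obtain ⟨hdim, hH'⟩ := dCAP_hall S T D D' h hTS hH hD'
  obtain ⟨N, C, δ, η, R, hNo, hNc, hC, hδ, hη, hψ⟩ := hSTR T D' h (hEP _ hdim) hh hH' ρ hρ
  -- the obstacle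
  have hgcv : CV (Gf S T D h) := (hGEO D).1.2.add (dCAP_cv hh (S \ T))
  have hgcont : Continuous (Gf S T D h) :=
    continuousOn_univ.1 (ConvexOn.continuousOn isOpen_univ hgcv)
  have hflat : ∀ v, FlatAt (Gf S T D h) 0 v → v ∈ D' := by
    intro v hv
    have h1 := (hFA (hGEO D).1.2 (dCAP_cv hh (S \ T)) 0 v).1 hv
    exact (hD' v).2 ⟨(hGEO D).2.2.2.2.2.2.2.2.1 v h1.1, (hFSum (S \ T) hh 0 v).1 h1.2⟩
  have hZ : IsCompact (Metric.closedBall (0 : E m) (2 * ρ) \ N) :=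
    (isCompact_closedBall _ _).diff hNo
  obtain ⟨Λ, c, q, p, hΛ, hΛ1, hc, hJ1, hJ2⟩ := hJEN (Gf S T D h) hgcv D' hflat _ hZ C δ hC hδ
  -- constants
  obtain ⟨ρ₁, hρ₁, hρ₁g⟩ : ∃ ρ₁ : ℝ, 0 < ρ₁ ∧ ∀ x : E m, ‖x‖ ≤ ρ₁ →
      Gf S T D h x ≤ Gf S T D h 0 + c / 8 ∧ -(c / 8) ≤ inner ℝ p x := by
    have h1 : Continuous fun x : E m => (inner ℝ p x : ℝ) := continuous_const.inner continuous_id
    have h2 : ∀ᶠ x : E m in 𝓝 0, Gf S T D h x < Gf S T D h 0 + c / 8 :=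
      hgcont.continuousAt.eventually_lt continuousAt_const (by linarith)
    have h3 : ∀ᶠ x : E m in 𝓝 0, -(c / 8) < inner ℝ p x :=
      continuousAt_const.eventually_lt h1.continuousAt (by simp; linarith)
    obtain ⟨ε, hε, h4⟩ := Metric.eventually_nhds_iff.1 (h2.and h3)
    refine ⟨ε / 2, by positivity, fun x hx => ?_⟩
    have h5 := h4 (y := x) (by rw [dist_zero_right]; linarith)
    exact ⟨h5.1.le, h5.2.le⟩
  obtain ⟨γ, hγdef⟩ : ∃ γ : ℝ, γ = c / (16 * ρ ^ 2) := ⟨_, rfl⟩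
  have hγ : 0 < γ := by rw [hγdef]; positivity
  have hγρ : γ * (2 * ρ) ^ 2 = c / 4 := by
    rw [hγdef]
    field_simp
    ring
  have hn1 : (0 : ℝ) < n + 1 := by positivity
  obtain ⟨η', hη'def⟩ : ∃ η' : ℝ, η' = min η (c / (8 * (n + 1))) := ⟨_, rfl⟩
  have hη' : 0 < η' := by rw [hη'def]; exact lt_min hη (by positivity)
  have hη'1 : η' ≤ η := by rw [hη'def]; exact min_le_left _ _
  have hη'2 : (n : ℝ) * η' ≤ c / 8 := by
    have h1 : η' ≤ c / (8 * (n + 1)) := by rw [hη'def]; exact min_le_right _ _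
    calc (n : ℝ) * η' ≤ (n + 1) * η' := by nlinarith
      _ ≤ (n + 1) * (c / (8 * (n + 1))) := mul_le_mul_of_nonneg_left h1 hn1.le
      _ = c / 8 := by field_simp
  refine ⟨N, min (c / 4) 1, min δ (min ρ₁ (2 * ρ)), γ, η', max R (2 * ρ), hNo, hNc,
    lt_min (by linarith) one_pos, min_le_right _ _, lt_min hδ (lt_min hρ₁ (by linarith)), hγ, hη',
    fun a ha => ?_⟩
  have hGa : ∀ x : E m, ‖x‖ ≤ 2 * ρ → |Gf S T D a x - Gf S T D h x| ≤ c / 8 := by
    intro x hx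
    have h1 : Gf S T D a x - Gf S T D h x = ∑ j ∈ S \ T, (a j x - h j x) := by
      unfold Gf
      rw [Finset.sum_sub_distrib]
      ring
    rw [h1]
    refine (Finset.abs_sum_le_sum_abs _ _).trans ?_
    calc ∑ j ∈ S \ T, |a j x - h j x| ≤ ∑ j ∈ S \ T, η' :=
          Finset.sum_le_sum fun j _ => ha.2 j x (hx.trans (le_max_right _ _))
      _ = ((S \ T).card : ℝ) * η' := by rw [Finset.sum_const, nsmul_eq_mul]
      _ ≤ (n : ℝ) * η' := by
          refine mul_le_mul_of_nonneg_right ?_ hη'.le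
          have h2 := Finset.card_le_univ (S \ T)
          rw [Fintype.card_fin] at h2
          exact_mod_cast h2
      _ ≤ c / 8 := hη'2
  obtain ⟨ψ, hψs, hψG, hψN, hψ0⟩ := hψ a ⟨ha.1, fun i x hx =>
    (ha.2 i x (hx.trans (le_max_left _ _))).trans hη'1⟩
  have hsym : (γ • (1 : Mat m)).IsSymm := by
    rw [Matrix.IsSymm, Matrix.transpose_smul, Matrix.transpose_one]
  obtain ⟨hq1, hq2⟩ := hQUA q p 0 (γ • (1 : Mat m)) hsym
  have hΛψ : ContDiff ℝ ∞ (fun x => Λ * ψ x) := contDiff_const.mul hψs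
  have hval : ∀ x : E m, (q + inner ℝ p (x - 0) + 1 / 2 * qf (γ • (1 : Mat m)) (x - 0)) + Λ * ψ x
      = q + inner ℝ p x + γ * ‖x‖ ^ 2 / 2 + Λ * ψ x := by
    intro x
    rw [sub_zero, dCAP_qf]
    ring
  refine ⟨fun x => (q + inner ℝ p (x - 0) + 1 / 2 * qf (γ • (1 : Mat m)) (x - 0)) + Λ * ψ x,
    hq1.add hΛψ, fun x => ?_, fun x hx hxN => ?_, fun x hx => ?_⟩
  · rw [hAdd hq1 hΛψ x, hq2 x, hSmul hψs Λ x]
    have h1 : γ • (1 : Mat m) + Λ • hess ψ x - γ • (1 : Mat m) = Λ • hess ψ x := by abel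
    rw [h1]
    exact (hCLO _ (dXQ_psd hP ha.1 _ (dXQ_wt_nonneg _ _ _ _ zero_le_one le_rfl) x)).2.2.2.2.2.1
      Λ _ hΛ.le hΛ1 (hψG x)
  · beta_reduce
    rw [hval]
    have h1 := hJ1 x ⟨by simpa using hx, hxN⟩
    have h2 := mul_le_mul_of_nonneg_left (hψN x hxN) hΛ.le
    have h3 := (abs_le.1 (hGa x hx)).1
    have h4 : γ * ‖x‖ ^ 2 ≤ c / 4 := by
      rw [← hγρ]
      exact mul_le_mul_of_nonneg_left (pow_le_pow_left₀ (norm_nonneg _) hx 2) hγ.le
    have h5 : min (c / 4) 1 ≤ c / 4 := min_le_left _ _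
    linarith
  · beta_reduce
    rw [hval]
    have hx1 : ‖x‖ ≤ δ := hx.trans (min_le_left _ _)
    have hx2 : ‖x‖ ≤ ρ₁ := hx.trans ((min_le_right _ _).trans (min_le_left _ _))
    have hx3 : ‖x‖ ≤ 2 * ρ := hx.trans ((min_le_right _ _).trans (min_le_right _ _))
    have h1 := mul_le_mul_of_nonneg_left (hψ0 x hx1) hΛ.le
    obtain ⟨h2, h3⟩ := hρ₁g x hx2
    have h4 := (abs_le.1 (hGa x hx3)).2
    have h5 : min (c / 4) 1 ≤ c / 4 := min_le_left _ _
    have h6 : 0 ≤ γ * ‖x‖ ^ 2 / 2 := by positivity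
    linarith

end Pool.Agent.helper40.SN
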