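import Pool.Agent.helper28.SN.SpecC
import Pool.Agent.helper36.SC.BP1

/-!
Row cBDD of the project MP_d2d7b9_gt (sn): the masses are bounded.
-/

set_option autoImplicit false

open scoped Pointwise ContDiff
open MeasureTheory Set Filter Topology Pool.Agent.helper83.SC Pool.Agent.helper69.SN

namespace Pool.Agent.helper28.SN

theorem cBDD (hT : exists_test_stmt) (hN : mD_nonneg_stmt) (hP : hess_psd_stmt)
    (hBS : B_smooth_stmt) (hTB : tendsto_B_stmt) (hC : continuous_hess_stmt) : cBDD_stmt := by
  intro m F G R hF hG hlim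
  obtain ⟨φ, hφ, -, hφ1, -⟩ := hT (m := m) (r₁ := |R| + 1) (r₂ := |R| + 2) (by positivity)
    (by linarith)
  have hb := (hTB hφ hF (fun l j => (hG l j).2) hlim).bddAbove_range
  obtain ⟨C, hC1⟩ := hb
  refine ⟨C, fun l => ?_⟩
  refine le_trans (b := B φ (G l)) ?_ (hC1 ⟨l, rfl⟩)
  rw [hBS hφ (fun j => (hG l j).1) (fun j => (hG l j).2)]
  have hcont : Continuous (fun x => mD (fun j => hess (G l j) x)) :=
    BP1_cont_mD fun j => hC (hG l j).1
  have hnn : ∀ x, 0 ≤ mD (fun j => hess (G l j) x) := fun x =>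
    hN fun j => hP (hG l j).1 (hG l j).2 x
  have h1 : ∫ x in Metric.closedBall 0 R, mD (fun j => hess (G l j) x)
      = ∫ x in Metric.closedBall 0 R, φ x * mD (fun j => hess (G l j) x) := by
    refine setIntegral_congr_fun Metric.isClosed_closedBall.measurableSet fun x hx => ?_
    have h2 : ‖x‖ < |R| + 1 := by
      have h3 : ‖x‖ ≤ R := by simpa using hx
      have h4 := le_abs_self R
      linarith
    show _ = φ x * _
    rw [hφ1 x h2, one_mul]
  rw [h1]
  exact setIntegral_le_integral (BP1_integrable hφ hcont)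
    (Eventually.of_forall fun x => mul_nonneg (hφ.2.2 x) (hnn x))

end Pool.Agent.helper28.SN
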